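import Pool.Agent.Lib_helper72.K8b.Cl

/-!
# The curve with `b = 2/9`, `c = 2/3`: enumeration, two points with difference 4
-/

set_option autoImplicit false

namespace Pool.Agent.K8b

open K8

lemma e2_4_2 : (List.range 1).all (fun i => ok2 dat 4 (i + 1) (2 - 1 - i)) = true := by
  decide +kernel

lemma e2_4_3 : (List.range 2).all (fun i => ok2 dat 4 (i + 1) (3 - 1 - i)) = true := by
  decide +kernel

lemma e2_4_4 : (List.range 3).all (fun i => ok2 dat 4 (i + 1) (4 - 1 - i)) = true := by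
  decide +kernel

lemma e2_4_5 : (List.range 4).all (fun i => ok2 dat 4 (i + 1) (5 - 1 - i)) = true := by
  decide +kernel

lemma e2_4_6 : (List.range 5).all (fun i => ok2 dat 4 (i + 1) (6 - 1 - i)) = true := by
  decide +kernel

lemma e2_4_7 : (List.range 6).all (fun i => ok0 dat 4 (i + 1) (6 - i)) = true := by
  decide +kernel

lemma okII4 : ∀ a b : ℕ, 1 ≤ a → 1 ≤ b → a + b ≤ 6 → ok2 dat 4 a b = true := by
  intro a b ha hb hab
  obtain ⟨i, rfl⟩ : ∃ i, a = i + 1 := ⟨a - 1, by omega⟩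
  obtain ⟨n, hn⟩ : ∃ n, n = i + 1 + b := ⟨_, rfl⟩
  have e : b = n - 1 - i := by omega
  subst e
  have h1 : 2 ≤ n := by omega
  have h2 : n ≤ 6 := by omega
  have hi : i < n - 1 := by omega
  interval_cases n
  · exact (List.all_eq_true.mp e2_4_2) i (List.mem_range.mpr hi)
  · exact (List.all_eq_true.mp e2_4_3) i (List.mem_range.mpr hi)
  · exact (List.all_eq_true.mp e2_4_4) i (List.mem_range.mpr hi)
  · exact (List.all_eq_true.mp e2_4_5) i (List.mem_range.mpr hi)
  · exact (List.all_eq_true.mp e2_4_6) i (List.mem_range.mpr hi)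

lemma okO4 : ∀ a b : ℕ, 1 ≤ a → 1 ≤ b → a + b = 7 → ok0 dat 4 a b = true := by
  intro a b ha hb hab
  obtain ⟨i, rfl⟩ : ∃ i, a = i + 1 := ⟨a - 1, by omega⟩
  have e : b = 6 - i := by omega
  subst e
  exact (List.all_eq_true.mp e2_4_7) i (List.mem_range.mpr (by omega))

end Pool.Agent.K8b
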