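import Pool.Agent.Lib_helper40.MC.P2
import Pool.Agent.Lib_helper72.K8b.S
import Pool.Agent.Lib_helper54.FAM.RC3
import Pool.Agent.Lib_helper76.FAM.Conj
import Pool.Agent.Lib_helper76.UE8.U8

/-!
# The second special curve with a point of order eight: the clause `Line`
-/

set_option autoImplicit false
set_option linter.unusedSectionVars false
set_option linter.unusedVariables false

open scoped TensorProduct WithZero

namespace Pool.Agent.FK4

open Pool.Agent.MK4 WeierstrassCurve.Affine Pool.Agent.KC72 Pool.Agent.MC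
open Pool.Agent.TN (Wt)
open Pool.Agent.UEG (P0)

section

variable {F : Type*} [Field F]

lemma ofFn_G8b (x y : F) : List.ofFn (K8b.G8 x y) = FK4R.g8b x y := rfl

end

variable {k : Type*} [Field k] [DecidableEq k] [CharZero k] {W : WeierstrassCurve.Affine k}
  {F : Type*} [Field F] [Algebra k F] {X Y : F}

lemma ue8_bb3 : UE8.bb (1 / 3 : k) = 2 / 9 := by unfold UE8.bb; norm_num

lemma ue8_cc3 : UE8.cc (1 / 3 : k) = 2 / 3 := by unfold UE8.cc; norm_num

lemma gen8b {x y : F} (h : Generic (Wt (UE8.bb (1 / 3 : k)) (UE8.cc (1 / 3))) x y) :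
    TN.Gen (2 / 9 : k) (2 / 3) x y := by
  have := UE4.of_UEG h.toU
  rwa [ue8_bb3, ue8_cc3] at this

lemma supp8b {x y : F} (hO : addOrderOf (P0 (UE8.cc (1 / 3 : k)) bb8') = 8)
    (h : Generic (Wt (UE8.bb (1 / 3 : k)) (UE8.cc (1 / 3))) x y) (f : F) :
    Supp (AddSubgroup.zmultiples (P0 (UE8.cc (1 / 3 : k)) bb8')) x y f ↔ K8b.U8 k x y f := by
  have hu : UE8.uF (1 / 3 : k) x y = K8b.uF x y := by
    unfold UE8.uF K8b.uF
    rw [ue8_bb3, ue8_cc3, K8b.mapb, K8b.mapc]
    have e1 : algebraMap k F (1 / 3 * (1 / 3 - 1)) = - (2 / 9) := by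
      rw [show (1 / 3 * (1 / 3 - 1) : k) = -2 / 9 by norm_num, K8b.mape]; ring
    have e2 : algebraMap k F (1 / 3 - 1) = - (2 / 3) := by
      rw [show (1 / 3 - 1 : k) = -2 / 3 by norm_num, K8b.maps]; ring
    rw [e1, e2, sub_neg_eq_add, neg_mul, sub_neg_eq_add]
  rw [supp_iff, UE8.isUn8 (by norm_num) (by norm_num) (by norm_num) bb8'
    (by rw [← hO]; exact addOrderOf_nsmul_eq_zero _) h.toU f, hu]
  rfl

/-- **the second special curve with a point of order eight**, given the class -/
theorem line8b_of (hg : Generic W X Y) {P : W.Point} (h8 : To8' P X Y)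
    {R : RCert} {L' : List Tm} (hR : ROkX R [L']) (hn : R.n = 9) (hr : R.r = 7)
    (hcl : sameC R.cls K8b.cls = true)
    {L : List Tm} (hLo : okT 9 K8b.cls L = true) (hLd : chkD 9 K8b.cls L = true)
    (hLL : L.map (fun t => (oo K8b.cls (t.c, t.s), t.u)) =
      L'.map (fun t => (oo R.cls (t.c, t.s), t.u)))
    (hres : FK4R.chkRes FK4R.locs8b FK4R.tab23 K8b.cls L = true)
    (hnz : ∀ (φ : k →+* ℝ) (x y : F), TN.Gen (2 / 9 : k) (2 / 3) x y →
      IntermediateField.adjoin k {x, y} = ⊤ →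
      RegNe φ (zt (FK4R.g8b x y) K8b.cls L)) : Line P X Y := by
  obtain ⟨x, y, hG, hO, hS, htop⟩ := h8
  have : CharZero F := charZero_of_injective_algebraMap (algebraMap k F).injective
  have hgen := gen8b hG
  have hs := fun f => supp8b hO hG f
  have heq := K8b.Gen.eq' hgen
  have hne : ∀ z ∈ FK4R.g8b x y, z ≠ 0 := by
    rw [← ofFn_G8b]; exact K8b.G8l_ne hgen
  refine line_rcert hg hS.toSame hR (n := 9) (r := 7) hn hr
    (cls := K8b.cls) hcl
    (G := K8b.G8 x y) (by norm_num) ?_ (fun i hi => K8b.G8_const i hi)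
    (fun e c hc he => K8b.G8_hM hgen e c hc he) (fun e he hp => K8b.G8_hc hgen e he hp)
    (K8b.sols8 hgen) ?_ hLo hLd hLL rfl ?_ ?_
  · intro i
    rw [hs]
    have hu : ∀ j : Fin 7, K8b.U8 k x y (K8b.uF x y j) := by
      intro j
      refine ⟨1, Pi.single j 1, one_ne_zero, ?_⟩
      unfold K8b.M8
      rw [map_one, one_mul, Finset.prod_eq_single j]
      · rw [Pi.single_eq_same, zpow_one]
      · intro i _ hi
        rw [Pi.single_eq_of_ne hi, zpow_zero]
      · intro hj; exact absurd (Finset.mem_univ _) hj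
    have hc : ∀ c : k, c ≠ 0 → K8b.U8 k x y (algebraMap k F c) := by
      intro c hc
      refine ⟨c, 0, hc, ?_⟩
      simp [K8b.M8]
    fin_cases i
    · exact hu 0
    · exact hu 1
    · exact hu 2
    · exact hu 3
    · exact hu 4
    · exact hu 5
    · exact hu 6
    · have := hc 2 two_ne_zero
      rwa [map_ofNat] at this
    · have := hc 3 three_ne_zero
      rwa [map_ofNat] at this
  · intro f hf hf1
    rw [hs] at hf hf1
    exact K8b.unit8' hgen hf hf1
  · rw [ofFn_G8b]
    exact FK4R.unram8b (by linear_combination heq) hne hres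
  · intro φ ht
    rw [ofFn_G8b]
    exact hnz φ x y hgen (htop ht)

end Pool.Agent.FK4
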