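import Pool.Agent.Lib_helper72.K8b.Cl

/-!
# The curve with `b = 2/9`, `c = 2/3`: enumeration, one point
-/

set_option autoImplicit false

namespace Pool.Agent.K8b

open K8

lemma e1_1 : ok1 dat 1 = true := by decide +kernel

lemma e1_2 : ok1 dat 2 = true := by decide +kernel

lemma e1_3 : ok1 dat 3 = true := by decide +kernel

lemma e1_4 : ok1 dat 4 = true := by decide +kernel

lemma e1_5 : ok1 dat 5 = true := by decide +kernel

lemma e1_6 : ok1 dat 6 = true := by decide +kernel

lemma e1_7 : ok1 dat 7 = true := by decide +kernel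

lemma e1_9 : ok1 dat 9 = true := by decide +kernel

lemma okI : ∀ n : ℕ, 1 ≤ n → n ≤ 9 → n ≠ 8 → ok1 dat n = true := by
  intro n h1 h2 h3
  interval_cases n
  · exact e1_1
  · exact e1_2
  · exact e1_3
  · exact e1_4
  · exact e1_5
  · exact e1_6
  · exact e1_7
  · exact absurd rfl h3
  · exact e1_9

end Pool.Agent.K8b
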